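import Mathlib
import Pool.Agent.W463.CI.Stm2

set_option autoImplicit false

namespace Pool.Agent.W847.CI

open W463.CI

universe u v w

section

variable {A : Type v} [Ring A] {m : ℕ} (e : Matrix (Fin m) (Fin m) A)

/-- the projective module of an idempotent matrix -/
def PM : Submodule A (Fin m → A) := LinearMap.range e.vecMulLinear

/-- the projection -/
def sp : (Fin m → A) →ₗ[A] PM e := e.vecMulLinear.rangeRestrict

theorem sp_coe (x : Fin m → A) : ((sp e x : PM e) : Fin m → A) = Matrix.vecMul x e := rfl

theorem sp_fix (he : e * e = e) (x : PM e) : sp e (x : Fin m → A) = x := by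
  obtain ⟨x, w, rfl⟩ := x
  apply Subtype.ext
  rw [sp_coe]
  simp [Matrix.vecMul_vecMul, he]

theorem sp_single (i j : Fin m) : ((sp e (Pi.single i 1) : PM e) : Fin m → A) j = e i j := by
  rw [sp_coe]
  simp

theorem sp_row (he : e * e = e) (i : Fin m) : sp e (fun j => e i j) = sp e (Pi.single i 1) := by
  have h : (fun j => e i j) = ((sp e (Pi.single i 1) : PM e) : Fin m → A) := by
    funext j
    rw [sp_single]
  rw [h, sp_fix e he]

theorem sum_single_smul (x : Fin m → A) : ∑ j, x j • (Pi.single j (1 : A) : Fin m → A) = x := by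
  funext k
  simp [Finset.sum_apply, Pi.single_apply]

theorem proj_PM (he : e * e = e) : Module.Projective A (PM e) := by
  apply Module.Projective.of_split (PM e).subtype (sp e)
  ext x : 1
  exact sp_fix e he x

end

section

variable {F : Type u} [Field F] {A : Type v} [Ring A] [Algebra F A]
  {m : ℕ} (e : Matrix (Fin m) (Fin m) A) {M : Type w} [AddCommGroup M] [Module F M] [Module A M]
  [IsScalarTower F A M]

/-- the action of a matrix on tuples -/
def TT : (Fin m → M) →ₗ[F] (Fin m → M) where
  toFun x i := ∑ j, e i j • x j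
  map_add' x y := by
    funext i
    simp [smul_add, Finset.sum_add_distrib]
  map_smul' c x := by
    funext i
    simp only [Pi.smul_apply, RingHom.id_apply, Finset.smul_sum]
    refine Finset.sum_congr rfl fun j _ => ?_
    rw [smul_comm]

theorem TT_apply (x : Fin m → M) (i : Fin m) : TT (F := F) e x i = ∑ j, e i j • x j := rfl

theorem TT_idem (he : e * e = e) (x : Fin m → M) :
    TT (F := F) e (TT (F := F) e x) = TT (F := F) e x := by
  funext i
  rw [TT_apply, TT_apply]
  simp only [TT_apply, Finset.smul_sum, smul_smul]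
  rw [Finset.sum_comm]
  refine Finset.sum_congr rfl fun k _ => ?_
  rw [← Finset.sum_smul]
  congr 1
  have := congrFun (congrFun he i) k
  rw [Matrix.mul_apply] at this
  exact this

/-- homomorphisms from the projective module -/
noncomputable def homEquiv (he : e * e = e) :
    (PM e →ₗ[A] M) ≃ₗ[F] LinearMap.range (TT (F := F) (M := M) e) where
  toFun φ := ⟨fun i => φ (sp e (Pi.single i 1)), by
    refine ⟨fun i => φ (sp e (Pi.single i 1)), ?_⟩
    funext i
    rw [TT_apply]
    calc ∑ j, e i j • φ (sp e (Pi.single j 1))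
        = φ (sp e (∑ j, e i j • Pi.single j (1 : A))) := by
          simp only [map_sum, map_smul]
      _ = φ (sp e (fun j => e i j)) := by
          rw [sum_single_smul (fun j => e i j)]
      _ = φ (sp e (Pi.single i 1)) := by rw [sp_row e he]⟩
  map_add' φ ψ := by
    apply Subtype.ext
    funext i
    simp
  map_smul' c φ := by
    apply Subtype.ext
    funext i
    simp
  invFun x := (Fintype.linearCombination A (x : Fin m → M)).comp (PM e).subtype
  left_inv φ := by
    ext x
    have h : ∑ i, (x : Fin m → A) i • φ (sp e (Pi.single i 1)) = φ x := by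
      calc ∑ i, (x : Fin m → A) i • φ (sp e (Pi.single i 1))
          = φ (sp e (∑ i, (x : Fin m → A) i • Pi.single i (1 : A))) := by
            simp only [map_sum, map_smul]
        _ = φ (sp e (x : Fin m → A)) := by rw [sum_single_smul]
        _ = φ x := by rw [sp_fix e he]
    simpa [Fintype.linearCombination_apply] using h
  right_inv x := by
    obtain ⟨x, y, rfl⟩ := x
    apply Subtype.ext
    funext i
    have h := congrFun (TT_idem (F := F) e he y) i
    rw [TT_apply] at h
    simp only [LinearMap.comp_apply, Submodule.subtype_apply, Fintype.linearCombination_apply,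
      sp_single]
    exact h

end

section

variable {F : Type u} [Field F] {A : Type v} [Ring A] [Algebra F A]
  {m : ℕ} (e : Matrix (Fin m) (Fin m) A) {M : Type w} [AddCommGroup M] [Module F M] [Module A M]
  [IsScalarTower F A M]

/-- the representation in a basis -/
noncomputable def rep {d : ℕ} (b : Module.Basis (Fin d) F M) : A →ₐ[F] Matrix (Fin d) (Fin d) F :=
  ((LinearMap.toMatrixAlgEquiv b : (M →ₗ[F] M) ≃ₐ[F] Matrix (Fin d) (Fin d) F) :
    (M →ₗ[F] M) →ₐ[F] Matrix (Fin d) (Fin d) F).comp (Algebra.lsmul F F M)

theorem rep_apply {d : ℕ} (b : Module.Basis (Fin d) F M) (a : A) (k l : Fin d) :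
    rep b a k l = b.repr (a • b l) k := by
  simp [rep, LinearMap.toMatrixAlgEquiv_apply]

theorem smul_basis {d : ℕ} (b : Module.Basis (Fin d) F M) (a : A) (l : Fin d) :
    a • b l = ∑ k, rep b a k l • b k := by
  simp only [rep_apply]
  exact (b.sum_repr (a • b l)).symm

/-- coordinates -/
noncomputable def Psi (m : ℕ) {d : ℕ} (b : Module.Basis (Fin d) F M) :
    (Fin m × Fin d → F) ≃ₗ[F] (Fin m → M) :=
  (LinearEquiv.curry F F (Fin m) (Fin d)).trans
    (LinearEquiv.piCongrRight (fun _ => b.equivFun.symm))

theorem Psi_apply (m : ℕ) {d : ℕ} (b : Module.Basis (Fin d) F M) (x : Fin m × Fin d → F)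
    (i : Fin m) : Psi m b x i = ∑ k, x (i, k) • b k := by
  simp [Psi, Module.Basis.equivFun_symm_apply]

theorem TT_Psi {d : ℕ} (b : Module.Basis (Fin d) F M) :
    (TT (F := F) (M := M) e).comp (Psi m b).toLinearMap =
      (Psi m b).toLinearMap.comp (sblk e (rep b)).mulVecLin := by
  apply LinearMap.ext
  intro x
  funext i
  simp only [LinearMap.comp_apply, LinearEquiv.coe_coe, TT_apply, Psi_apply,
    Matrix.mulVecLin_apply, Matrix.mulVec, dotProduct, sblk, Matrix.of_apply,
    Fintype.sum_prod_type, Finset.smul_sum, Finset.sum_smul]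
  rw [Finset.sum_comm]
  have h : ∀ (j : Fin m) (l : Fin d), e i j • (x (j, l) • b l)
      = ∑ k, (rep b (e i j) k l * x (j, l)) • b k := by
    intro j l
    rw [smul_comm, smul_basis, Finset.smul_sum]
    refine Finset.sum_congr rfl fun k _ => ?_
    rw [smul_smul, mul_comm]
  simp only [h]
  rw [Finset.sum_comm]
  rw [Finset.sum_comm (s := (Finset.univ : Finset (Fin d)))]
  refine Finset.sum_congr rfl fun j _ => ?_
  rw [Finset.sum_comm]

theorem finrank_hom (he : e * e = e) {d : ℕ} (b : Module.Basis (Fin d) F M) :
    Module.finrank F (PM e →ₗ[A] M) = (sblk e (rep b)).rank := by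
  rw [(homEquiv (F := F) (M := M) e he).finrank_eq]
  have h1 : LinearMap.range (TT (F := F) (M := M) e) =
      (LinearMap.range (sblk e (rep b)).mulVecLin).map (Psi m b).toLinearMap := by
    rw [← LinearMap.range_comp, ← TT_Psi, LinearMap.range_comp, LinearEquiv.range,
      ← LinearMap.range_eq_map]
  rw [h1]
  exact LinearEquiv.finrank_map_eq (Psi m b) _

end

theorem algf (h : AF1.{u, v, v}) : ALGF.{u, v} := by
  intro F _ A _ _ _ m r e he hr
  have : Module.Projective A (PM e) := proj_PM e he
  have : Module.Finite A (PM e) := by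
    unfold PM
    infer_instance
  obtain ⟨g⟩ := h F A (PM e) (Fin r → A) (by
    intro M _ _ _ _ _
    rw [finrank_hom e he (Module.finBasis F M), hr]
    have h2 : Module.finrank F ((Fin r → A) →ₗ[A] M) = Module.finrank F (Fin r → M) :=
      (((Pi.basisFun A (Fin r)).constr F (M' := M)).finrank_eq).symm
    rw [h2, Module.finrank_pi_fintype]
    simp [mul_comm])
  refine ⟨Matrix.of fun i => g (sp e (Pi.single i 1)),
    Matrix.of fun k => ((g.symm (Pi.single k 1) : PM e) : Fin m → A), ?_, ?_⟩
  · ext i j
    have h1 : g.symm (∑ k, g (sp e (Pi.single i 1)) k • Pi.single k (1 : A))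
        = sp e (Pi.single i 1) := by
      rw [sum_single_smul, LinearEquiv.symm_apply_apply]
    have h2 := congrArg (fun y : PM e => (y : Fin m → A) j) h1
    simp only [map_sum, map_smul, sp_single] at h2
    rw [← h2, Matrix.mul_apply]
    simp [Matrix.of_apply]
  · ext k l
    have h1 : g (sp e (∑ i, ((g.symm (Pi.single k 1) : PM e) : Fin m → A) i • Pi.single i (1 : A)))
        = Pi.single k 1 := by
      rw [sum_single_smul, sp_fix e he, LinearEquiv.apply_symm_apply]
    have h2 := congrFun h1 l
    simp only [map_sum, map_smul, Finset.sum_apply, Pi.smul_apply] at h2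
    rw [Matrix.mul_apply, Matrix.one_apply]
    simp only [Matrix.of_apply]
    rw [show (if k = l then (1 : A) else 0) = (Pi.single k (1 : A) : Fin r → A) l by
      rw [Pi.single_apply]; simp [eq_comm]]
    rw [← h2]
    rfl

end Pool.Agent.W847.CI
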